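import Pool.Agent.H32.RK.TargetsE

/-!
Row CUB of hpk_modules: many disjoint polydiscs on which both forms are small.
-/

set_option autoImplicit false

open Finset NumberField Pool.Agent.H32.RQ Pool.Agent.H32.RK

namespace Pool.Agent.H64.RK

theorem card_ab {s : ℕ} {a b : Fin s} (hab : a ≠ b) :
    ((univ : Finset (Fin s)).filter fun j => ¬ (j = a ∨ j = b)).card = s - 2 := by
  have h1 : ((univ : Finset (Fin s)).filter fun j => ¬ (j = a ∨ j = b)) =
      univ \ ({a, b} : Finset (Fin s)) := by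
    ext j
    simp
  rw [h1, Finset.card_sdiff_of_subset (Finset.subset_univ _), Finset.card_pair hab]
  simp

theorem qf_smul {𝕜 : Type} [CommRing 𝕜] {s : ℕ} (f : Mon s → 𝕜) (y : Fin s → 𝕜) (t : 𝕜) :
    qf f (fun j => t * y j) = t ^ 2 * qf f y := by
  unfold qf
  rw [Finset.mul_sum]
  apply Finset.sum_congr rfl
  intro p _
  ring

theorem pf_CUB (hNEW : T_NEW) : T_CUB := by
  classical
  intro 𝕜 _ e s d hSep hd
  obtain ⟨κ, hκ, hS⟩ := hSep
  obtain ⟨r, c0, hr, hc0, hN⟩ := hNEW 𝕜 s d hd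
  obtain ⟨c, hc, hcc0, hc16⟩ : ∃ c : ℝ, 0 < c ∧ c ≤ c0 ∧ c ≤ 1 / 16 :=
    ⟨min c0 (1 / 16), lt_min hc0 (by norm_num), min_le_left _ _, min_le_right _ _⟩
  refine ⟨r, min (κ * c / 4) (c / 4), hr, lt_min (by positivity) (by positivity), ?_⟩
  intro f x hf hx hx1 hq hj ρ hρ hρc
  obtain ⟨a, b, hab⟩ := hj
  have hne : a ≠ b := by
    intro h
    rw [h] at hab
    have : jm f x b b = 0 := by
      unfold jm
      ring
    rw [this, norm_zero] at hab
    linarith
  have hρ4 : 4 * ρ ≤ c := by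
    have := hρc.trans (min_le_right _ _)
    linarith
  obtain ⟨G, hGc, hGn, hGs⟩ := hS c (4 * ρ) (by positivity) hρ4
  obtain ⟨W, hW⟩ : ∃ W : Finset (Fin s → 𝕜), W =
      Fintype.piFinset fun j => if j = a ∨ j = b then ({0} : Finset 𝕜) else G := ⟨_, rfl⟩
  have hWa : ∀ k ∈ W, ∀ j, (j = a ∨ j = b) → k j = 0 := by
    intro k hk j hj
    rw [hW, Fintype.mem_piFinset] at hk
    have := hk j
    rw [if_pos hj, Finset.mem_singleton] at this
    exact this
  have hWG : ∀ k ∈ W, ∀ j, ¬ (j = a ∨ j = b) → k j ∈ G := by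
    intro k hk j hj
    rw [hW, Fintype.mem_piFinset] at hk
    have := hk j
    rwa [if_neg hj] at this
  have hw : ∀ k ∈ W, ∀ j, ‖k j‖ ≤ c := by
    intro k hk j
    by_cases hj : j = a ∨ j = b
    · rw [hWa k hk j hj, norm_zero]
      exact hc.le
    · exact hGn _ (hWG k hk j hj)
  have hex : ∀ k : Fin s → 𝕜, ∃ y : Fin s → 𝕜, k ∈ W →
      (∀ j, j ≠ a → j ≠ b → y j = x j + k j) ∧ (∀ j, ‖y j - x j‖ ≤ 1 / 16) ∧
      ∀ i, qf (f i) y = 0 := by
    intro k
    by_cases hk : k ∈ W
    · obtain ⟨y, h1, h2, h3⟩ := hN f x a b hf hx hq hab k (fun j => (hw k hk j).trans hcc0)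
      exact ⟨y, fun _ => ⟨h1, h2, h3⟩⟩
    · exact ⟨0, fun h => absurd h hk⟩
  choose y hy using hex
  have ht : ‖((3 / 4 : ℝ) : 𝕜)‖ = 3 / 4 := by
    rw [RCLike.norm_ofReal, abs_of_pos (by norm_num)]
  obtain ⟨t, htt⟩ : ∃ t : 𝕜, t = ((3 / 4 : ℝ) : 𝕜) := ⟨_, rfl⟩
  rw [← htt] at ht
  -- separation
  have hsep : ∀ k ∈ W, ∀ k' ∈ W, k ≠ k' →
      ∃ j, 2 * ρ < ‖t * y k j - t * y k' j‖ := by
    intro k hk k' hk' hkk
    obtain ⟨j, hj⟩ := Function.ne_iff.1 hkk
    have hja : ¬ (j = a ∨ j = b) := by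
      intro h
      exact hj ((hWa k hk j h).trans (hWa k' hk' j h).symm)
    have hja2 := hja
    push Not at hja2
    refine ⟨j, ?_⟩
    rw [(hy k hk).1 j hja2.1 hja2.2, (hy k' hk').1 j hja2.1 hja2.2]
    have h1 : t * (x j + k j) - t * (x j + k' j) = t * (k j - k' j) := by ring
    rw [h1, norm_mul, ht]
    have h2 := hGs _ (hWG k hk j hja) _ (hWG k' hk' j hja) hj
    linarith
  refine ⟨W.image fun k j => t * y k j, ?_, ?_, ?_⟩
  · -- cardinality
    have hinj : (W.image fun k j => t * y k j).card = W.card := by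
      apply Finset.card_image_of_injOn
      intro k hk k' hk' h
      by_contra hkk
      obtain ⟨j, hj⟩ := hsep k hk k' hk' hkk
      have h1 := congrFun h j
      simp only at h1
      rw [h1, sub_self, norm_zero] at hj
      linarith
    rw [hinj, hW, Fintype.card_piFinset]
    have h1 : (∏ j : Fin s, (if j = a ∨ j = b then ({0} : Finset 𝕜) else G).card) =
        G.card ^ (s - 2) := by
      have h2 : ∀ j : Fin s, (if j = a ∨ j = b then ({0} : Finset 𝕜) else G).card =
          if j = a ∨ j = b then 1 else G.card := by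
        intro j
        split_ifs <;> simp
      rw [Finset.prod_congr rfl (fun j _ => h2 j), Finset.prod_ite, Finset.prod_const_one, one_mul,
        Finset.prod_const, card_ab hne]
    rw [h1]
    push_cast
    rw [pow_mul]
    apply pow_le_pow_left₀ (by positivity)
    refine le_trans ?_ hGc
    have h0 : 0 < min (κ * c / 4) (c / 4) := lt_min (by positivity) (by positivity)
    apply pow_le_pow_left₀ (div_nonneg h0.le hρ.le)
    have h4 : κ * c / (4 * ρ) = κ * c / 4 / ρ := by rw [div_div]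
    rw [h4]
    exact div_le_div_of_nonneg_right (min_le_left _ _) hρ.le
  · intro u hu
    rw [Finset.mem_image] at hu
    obtain ⟨k, hk, rfl⟩ := hu
    obtain ⟨h1, h2, h3⟩ := hy k hk
    have hyj : ∀ j, ‖y k j‖ ≤ 17 / 16 := by
      intro j
      have h4 : y k j = (y k j - x j) + x j := by ring
      rw [h4]
      refine (norm_add_le _ _).trans ?_
      have := h2 j
      have := hx j
      linarith
    refine ⟨fun i => by rw [qf_smul, h3 i, mul_zero], fun j => ?_, ?_⟩
    · rw [norm_mul, ht]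
      have := hyj j
      linarith
    · obtain ⟨j, hj⟩ := hx1
      refine ⟨j, ?_⟩
      rw [norm_mul, ht]
      have h4 : ‖x j‖ ≤ ‖y k j - x j‖ + ‖y k j‖ := by
        have h5 : x j = y k j - (y k j - x j) := by ring
        calc ‖x j‖ = ‖y k j - (y k j - x j)‖ := by rw [← h5]
          _ ≤ ‖y k j‖ + ‖y k j - x j‖ := norm_sub_le _ _
          _ = _ := add_comm _ _
      have := h2 j
      rw [hj] at h4
      linarith
  · intro u hu u' hu' huu
    rw [Finset.mem_image] at hu hu'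
    obtain ⟨k, hk, rfl⟩ := hu
    obtain ⟨k', hk', rfl⟩ := hu'
    have hkk : k ≠ k' := by
      intro h
      apply huu
      rw [h]
    exact hsep k hk k' hk' hkk

end Pool.Agent.H64.RK
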